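import Pool.Agent.helper78.EQ.Spec
import Pool.Agent.helper85.LD.G1
import Pool.Agent.helper30.LD.J0
import Pool.Agent.helper97.LD.F0

set_option autoImplicit false

open Complex MeasureTheory Set Metric

namespace Pool.Agent.EQ

open Pool.Agent.helper6.LD

/-- `|ζ s| ≤ 1 + 1/(Re s - 1)` for `Re s > 1` -/
theorem helper64_zeta_le {s : ℂ} (hs : 1 < s.re) : ‖riemannZeta s‖ ≤ 1 + 1 / (s.re - 1) := by
  rw [zeta_eq_tsum_one_div_nat_add_one_cpow hs]
  have hsum : Summable (fun n : ℕ => 1 / ((n : ℝ) + 1) ^ s.re) := by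
    have := (Real.summable_one_div_nat_rpow (p := s.re)).2 hs
    have h2 := (summable_nat_add_iff 1).2 this
    refine h2.congr fun n => ?_
    push_cast
    rfl
  have h1 : ∀ n : ℕ, ‖1 / ((n : ℂ) + 1) ^ s‖ ≤ 1 / ((n : ℝ) + 1) ^ s.re := by
    intro n
    have : ((n : ℂ) + 1) = (((n : ℝ) + 1 : ℝ) : ℂ) := by push_cast; ring
    rw [norm_div, norm_one, this, Complex.norm_cpow_eq_rpow_re_of_pos (by positivity)]
  refine (tsum_of_norm_bounded hsum.hasSum h1).trans ?_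
  have h3 := ZetaAsymptotics.zeta_limit_aux1 hs
  have h4 : 0 ≤ ZetaAsymptotics.termTSum s.re :=
    tsum_nonneg fun n => ZetaAsymptotics.term_nonneg _ _
  have h5 : 0 ≤ s.re * ZetaAsymptotics.termTSum s.re := by positivity
  linarith


theorem helper64_vol_rect (x₀ a y r : ℝ) (ha : 0 ≤ a) (_hr : 0 ≤ r) :
    volume {s : ℂ | x₀ < s.re ∧ s.re ≤ x₀ + a ∧ |s.im - y| ≤ r} ≤
      ENNReal.ofReal (a * (2 * r)) := by
  have hsub : {s : ℂ | x₀ < s.re ∧ s.re ≤ x₀ + a ∧ |s.im - y| ≤ r} ⊆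
      Complex.measurableEquivRealProd ⁻¹' (Ioc x₀ (x₀ + a) ×ˢ Icc (y - r) (y + r)) := by
    rintro s ⟨h1, h2, h3⟩
    rw [abs_le] at h3
    simp only [mem_preimage, Complex.measurableEquivRealProd_apply, mem_prod, mem_Ioc, mem_Icc]
    exact ⟨⟨h1, h2⟩, by linarith [h3.1], by linarith [h3.2]⟩
  refine (measure_mono hsub).trans ?_
  rw [Complex.volume_preserving_equiv_real_prod.measure_preimage_equiv, Measure.volume_eq_prod,
    Measure.prod_prod, Real.volume_Ioc, Real.volume_Icc, ← ENNReal.ofReal_mul (by linarith)]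
  refine ENNReal.ofReal_le_ofReal (le_of_eq ?_)
  ring

/-- large values of zeta on most circles about the centre -/
theorem helper64_angle (hJNA : JNA_stmt) {C : ℝ} (hC : 0 < C)
    (hgrow : ∀ s : ℂ, 1 / 8 ≤ s.re → 1 ≤ |s.im| → ‖riemannZeta s‖ ≤ C * ‖s‖)
    {δ ε : ℝ} (hδ : 0 < δ) (hδ4 : δ ≤ 1 / 4) (hε : 0 < ε) {X σ : ℝ} {k : ℕ}
    (hσ : 1 / 2 + δ ≤ σ) (hσ1 : σ ≤ 1) (hk1 : 1 / δ + 1 + 5 ≤ (k : ℝ)) (hk2 : 4 * C ≤ (k : ℝ))
    (hkX : (k : ℝ) ≤ X) (hX : Real.log 4 ≤ ε * δ ^ 2 / 40 * Real.log X)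
    (hd : ε * Real.log X ≤ ((dz σ k).ncard : ℝ)) {R : ℝ}
    (hR1 : (1 / δ + 1) - σ + δ / 8 + δ / 4 ≤ R) (hR2 : R ≤ (1 / δ + 1) - σ + δ / 8 + δ / 2) :
    ENNReal.ofReal (Real.pi * (ε * δ ^ 2 / 40)) ≤
      volume {θ : ℝ | θ ∈ Ioc 0 (2 * Real.pi) ∧
        circleMap (((1 / δ + 1 : ℝ) : ℂ) + (((k : ℝ) + 1 / 2 : ℝ) : ℂ) * I) R θ ∈
          {s : ℂ | X ^ (ε * δ ^ 2 / 40) ≤ ‖riemannZeta s‖}} := by
  set M₁ : ℝ := 1 / δ + 1 with hM₁
  set v : ℝ := ε * δ ^ 2 / 40 with hv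
  set y : ℝ := (k : ℝ) + 1 / 2 with hy
  set c₀ : ℂ := (M₁ : ℂ) + (y : ℂ) * I with hc₀
  set R₁ : ℝ := M₁ - σ + δ / 8 with hR₁
  have hdinv : 4 ≤ 1 / δ := by rw [le_div_iff₀ hδ]; linarith
  have hv0 : 0 < v := by positivity
  have hre : c₀.re = M₁ := by simp [hc₀]
  have him : c₀.im = y := by simp [hc₀]
  have hX1 : 1 < X := by linarith
  have hL0 : 0 < Real.log X := Real.log_pos hX1
  have hR₁pos : 0 < R₁ := by rw [hR₁]; linarith
  have hRR : R₁ < R := by linarith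
  have hball : ∀ z ∈ closedBall c₀ R, 1 / 2 ≤ z.re ∧ 1 ≤ z.im ∧ ‖z‖ ≤ 4 * k := by
    intro z hz
    rw [mem_closedBall, dist_eq_norm] at hz
    have h1 := (Complex.abs_re_le_norm (z - c₀)).trans hz
    have h2 := (Complex.abs_im_le_norm (z - c₀)).trans hz
    rw [Complex.sub_re, hre, abs_le] at h1
    rw [Complex.sub_im, him, abs_le] at h2
    have h3 : 1 / 2 ≤ z.re := by linarith [h1.1]
    have h4 : 1 ≤ z.im := by linarith [h2.1]
    refine ⟨h3, h4, ?_⟩
    refine (Complex.norm_le_abs_re_add_abs_im z).trans ?_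
    rw [abs_of_nonneg (by linarith), abs_of_nonneg (by linarith)]
    linarith [h1.2, h2.2]
  have hne1 : ∀ z ∈ closedBall c₀ R, z ≠ 1 := by
    intro z hz h
    have := (hball z hz).2.1
    rw [h, Complex.one_im] at this
    linarith
  have han : AnalyticOnNhd ℂ riemannZeta (closedBall c₀ R) := by
    intro z hz
    exact analyticOn_riemannZeta z (by simpa using hne1 z hz)
  have hlow : 1 / 4 ≤ ‖riemannZeta c₀‖ := zeta_lower (by rw [hre]; linarith)
  have hfc : riemannZeta c₀ ≠ 0 := by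
    intro h
    rw [h, norm_zero] at hlow
    linarith
  have hbound : ∀ z ∈ sphere c₀ R, ‖riemannZeta z‖ ≤ Real.exp (2 * Real.log X) := by
    intro z hz
    obtain ⟨h1, h2, h3⟩ := hball z (sphere_subset_closedBall hz)
    have h4 := hgrow z (by linarith) (by rw [abs_of_nonneg (by linarith)]; exact h2)
    have h5 : Real.exp (2 * Real.log X) = X ^ 2 := by
      rw [two_mul, Real.exp_add, Real.exp_log (by linarith)]
      ring
    rw [h5]
    have hk0 : (0 : ℝ) ≤ k := Nat.cast_nonneg k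
    calc ‖riemannZeta z‖ ≤ C * ‖z‖ := h4
      _ ≤ C * (4 * k) := mul_le_mul_of_nonneg_left h3 hC.le
      _ ≤ k * k := by nlinarith
      _ ≤ X ^ 2 := by nlinarith
  have hbd : Bornology.IsBounded (closedBall c₀ R) := isBounded_closedBall
  have hzin : ∀ z ∈ dz σ k, riemannZeta z = 0 ∧ z ∈ closedBall c₀ R₁ := by
    rintro z ⟨h1, h2, h3, h4⟩
    refine ⟨h1, ?_⟩
    have h5 : z.re < 1 := h97_re_lt h1
    rw [mem_closedBall, dist_eq_norm, Complex.norm_def, Real.sqrt_le_left hR₁pos.le,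
      Complex.normSq_apply, Complex.sub_re, Complex.sub_im, hre, him]
    have h6 : 0 ≤ M₁ - z.re := by linarith
    have h7 : M₁ - z.re ≤ M₁ - σ := by linarith
    have h8 : (z.re - M₁) * (z.re - M₁) ≤ (M₁ - σ) ^ 2 := by nlinarith
    have h9 : (z.im - y) * (z.im - y) ≤ 1 / 4 := by
      have : |z.im - y| ≤ 1 / 2 := by rw [abs_le]; constructor <;> linarith
      nlinarith [abs_nonneg (z.im - y), sq_abs (z.im - y)]
    have h10 : R₁ ^ 2 = (M₁ - σ) ^ 2 + (M₁ - σ) * δ / 4 + δ ^ 2 / 64 := by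
      rw [hR₁]; ring
    have h11 : 1 ≤ (M₁ - σ) * δ := by
      have h12 : 1 / δ * δ = 1 := by field_simp
      have h13 : 1 / δ ≤ M₁ - σ := by linarith
      nlinarith
    rw [h10]
    nlinarith [sq_nonneg δ]
  have hfin : (dz σ k).Finite := by
    refine (zeros_finite (S := closedBall c₀ R₁) isBounded_closedBall).subset ?_
    intro z hz
    exact ⟨(hzin z hz).2, (hzin z hz).1⟩
  have hcard : (hfin.toFinset.card : ℝ) = ((dz σ k).ncard : ℝ) := by
    rw [Set.ncard_eq_toFinset_card _ hfin]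
  have key := hJNA riemannZeta c₀ R₁ R (v * Real.log X) (2 * Real.log X) hfin.toFinset hR₁pos hRR
    (by positivity) (by positivity) han hfc hbound (fun z hz => hzin z (hfin.mem_toFinset.1 hz))
  rw [hcard] at key
  have hexp : Real.exp (v * Real.log X) = X ^ v := by
    rw [Real.rpow_def_of_pos (by linarith), mul_comm]
  rw [hexp] at key
  set α : ℝ := (volume {θ : ℝ | θ ∈ Ioc 0 (2 * Real.pi) ∧
    X ^ v ≤ ‖riemannZeta (circleMap c₀ R θ)‖}).toReal with hα
  have hlog : δ ^ 2 / 10 ≤ Real.log (R / R₁) := by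
    have hR₁le : R₁ * (4 * δ) ≤ 5 := by
      have h1 : R₁ ≤ 1 / δ + 1 / 2 := by rw [hR₁, hM₁]; linarith
      have h2 : 1 / δ * δ = 1 := by field_simp
      nlinarith
    have h1 : 1 + δ ^ 2 / 5 ≤ R / R₁ := by
      rw [le_div_iff₀ hR₁pos]
      nlinarith
    have h2 : Real.log (1 + δ ^ 2 / 5) ≤ Real.log (R / R₁) :=
      Real.log_le_log (by positivity) h1
    have h3 : 1 - (1 + δ ^ 2 / 5)⁻¹ ≤ Real.log (1 + δ ^ 2 / 5) :=
      Real.one_sub_inv_le_log_of_pos (by positivity)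
    have h4 : δ ^ 2 / 10 ≤ 1 - (1 + δ ^ 2 / 5)⁻¹ := by
      have h5 : 1 - (1 + δ ^ 2 / 5)⁻¹ = (δ ^ 2 / 5) / (1 + δ ^ 2 / 5) := by
        field_simp
        ring
      rw [h5, le_div_iff₀ (by positivity)]
      have h6 : δ ^ 2 ≤ 1 := by nlinarith
      nlinarith [sq_nonneg δ]
    linarith
  have hlow2 : -Real.log 4 ≤ Real.log ‖riemannZeta c₀‖ := by
    have := Real.log_le_log (by norm_num) hlow
    rwa [one_div, Real.log_inv] at this
  have hpi := Real.pi_pos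
  have h1 : ε * Real.log X * (δ ^ 2 / 10) - Real.log 4 ≤
      v * Real.log X + 2 * Real.log X / (2 * Real.pi) * α := by
    have h2 : ε * Real.log X * (δ ^ 2 / 10) ≤ ((dz σ k).ncard : ℝ) * Real.log (R / R₁) :=
      mul_le_mul hd hlog (by positivity) (by positivity)
    linarith
  have h3 : 2 * v * Real.log X ≤ 2 * Real.log X / (2 * Real.pi) * α := by
    have h4 : ε * Real.log X * (δ ^ 2 / 10) = 4 * v * Real.log X := by rw [hv]; ring
    linarith
  have h5 : 2 * Real.log X / (2 * Real.pi) * α = Real.log X * (α / Real.pi) := by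
    field_simp
  rw [h5] at h3
  have h6 : 2 * v ≤ α / Real.pi := by
    have : Real.log X * (2 * v) ≤ Real.log X * (α / Real.pi) := by linarith
    exact le_of_mul_le_mul_left this hL0
  have h7 : Real.pi * v ≤ α := by
    rw [le_div_iff₀ hpi] at h6
    nlinarith
  have hset : {θ : ℝ | θ ∈ Ioc 0 (2 * Real.pi) ∧ circleMap c₀ R θ ∈
      {s : ℂ | X ^ v ≤ ‖riemannZeta s‖}} = {θ : ℝ | θ ∈ Ioc 0 (2 * Real.pi) ∧
    X ^ v ≤ ‖riemannZeta (circleMap c₀ R θ)‖} := rfl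
  rw [hset]
  have hfinv : volume {θ : ℝ | θ ∈ Ioc 0 (2 * Real.pi) ∧
      X ^ v ≤ ‖riemannZeta (circleMap c₀ R θ)‖} ≠ ⊤ := by
    refine ne_top_of_le_ne_top ?_ (measure_mono (t := Ioc 0 (2 * Real.pi)) fun θ h => h.1)
    rw [Real.volume_Ioc]
    exact ENNReal.ofReal_ne_top
  rw [ENNReal.ofReal_le_iff_le_toReal hfinv]
  exact h7

theorem helper64_meas : Measurable riemannZeta := by
  refine measurable_of_continuousOn_compl_singleton 1 ?_
  intro z hz
  exact (differentiableAt_riemannZeta (by simpa using hz)).continuousAt.continuousWithinAt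

theorem JEN (hJNA : JNA_stmt) (hJNB : JNB_stmt) : JEN_stmt := by
  intro δ ε hδ hδ4 hε
  obtain ⟨C, hC, hgrow⟩ := zeta_growth
  have hpi := Real.pi_pos
  have hpi3 := Real.pi_gt_three
  have hdinv : 4 ≤ 1 / δ := by rw [le_div_iff₀ hδ]; linarith
  have hv0 : 0 < ε * δ ^ 2 / 40 := by positivity
  set v : ℝ := ε * δ ^ 2 / 40 with hv
  set M₁ : ℝ := 1 / δ + 1 with hM₁
  set B : ℝ := 4 + 64 * M₁ / v with hB
  have hB4 : 4 ≤ B := by
    have : 0 ≤ 64 * M₁ / v := by positivity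
    linarith
  refine ⟨v, M₁ + 1, Real.pi * v / 8, max (max (M₁ + 5) (4 * C)) (B ^ (1 / v)), hv0,
    by linarith, by positivity, ?_, ?_⟩
  · exact le_trans (by linarith) ((le_max_left _ _).trans (le_max_left _ _))
  intro X σ k hσ hσ1 hk hkX hd
  have hk1 : M₁ + 5 ≤ (k : ℝ) := ((le_max_left _ _).trans (le_max_left _ _)).trans hk
  have hk2 : 4 * C ≤ (k : ℝ) := ((le_max_right _ _).trans (le_max_left _ _)).trans hk
  have hk3 : B ^ (1 / v) ≤ X := ((le_max_right _ _).trans hk).trans hkX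
  have hX0 : 0 < X := by linarith
  have hXv : B ≤ X ^ v := by
    have h1 : (B ^ (1 / v)) ^ v ≤ X ^ v :=
      Real.rpow_le_rpow (by positivity) hk3 hv0.le
    rwa [← Real.rpow_mul (by linarith), one_div, inv_mul_cancel₀ hv0.ne', Real.rpow_one] at h1
  have hlogX : Real.log 4 ≤ v * Real.log X := by
    have h1 : Real.log 4 ≤ Real.log (X ^ v) := Real.log_le_log (by norm_num) (hB4.trans hXv)
    rwa [Real.log_rpow hX0] at h1
  set y : ℝ := (k : ℝ) + 1 / 2 with hy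
  set c₀ : ℂ := (M₁ : ℂ) + (y : ℂ) * I with hc₀
  have hre : c₀.re = M₁ := by simp [hc₀]
  have him : c₀.im = y := by simp [hc₀]
  set E : Set ℂ := {s : ℂ | X ^ v ≤ ‖riemannZeta s‖} with hE
  have hEm : MeasurableSet E := measurableSet_le measurable_const helper64_meas.norm
  set Ra : ℝ := M₁ - σ + δ / 8 + δ / 4 with hRa
  set Rb : ℝ := M₁ - σ + δ / 8 + δ / 2 with hRb
  have hRa0 : 1 / δ ≤ Ra := by rw [hRa, hM₁]; linarith
  have hRbM : Rb ≤ M₁ := by rw [hRb]; linarith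
  have hang : ∀ R : ℝ, Ra < R → R < Rb → ENNReal.ofReal (Real.pi * v) ≤
      volume {θ : ℝ | θ ∈ Ioc 0 (2 * Real.pi) ∧ circleMap c₀ R θ ∈ E} := by
    intro R h1 h2
    exact helper64_angle hJNA hC hgrow hδ hδ4 hε hσ hσ1 hk1 hk2 hkX hlogX hd h1.le h2.le
  have hb := hJNB E c₀ Ra Rb (ENNReal.ofReal (Real.pi * v)) hEm (by linarith)
    (by rw [hRa, hRb]; linarith) hang
  have hlow : ENNReal.ofReal (Real.pi * v / 8) + ENNReal.ofReal (Real.pi * v / 8) ≤
      volume (E ∩ closedBall c₀ Rb) := by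
    refine le_trans ?_ hb
    rw [← ENNReal.ofReal_add (by positivity) (by positivity),
      ← ENNReal.ofReal_mul (mul_nonneg (by linarith) (by rw [hRa, hRb]; linarith))]
    refine ENNReal.ofReal_le_ofReal ?_
    have h1 : Rb - Ra = δ / 4 := by rw [hRa, hRb]; ring
    rw [h1]
    have h2 : 1 / δ * (δ / 4) = 1 / 4 := by field_simp
    have h3 : 1 / 4 ≤ Ra * (δ / 4) := by nlinarith
    have h4 : 0 < Real.pi * v := by positivity
    nlinarith
  set T : Set ℂ := {s : ℂ | σ - δ ≤ s.re ∧ s.re ≤ 1 ∧ |s.im - k| ≤ M₁ + 1 ∧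
    X ^ v ≤ ‖riemannZeta s‖} with hT
  have hXv2 : 2 ≤ X ^ v := by linarith
  have hXvpos : 0 < X ^ v := by linarith
  have hsub : E ∩ closedBall c₀ Rb ⊆ T ∪
      {s : ℂ | 1 < s.re ∧ s.re ≤ 1 + 2 / X ^ v ∧ |s.im - y| ≤ M₁} := by
    rintro s ⟨hs1, hs2⟩
    rw [mem_closedBall, dist_eq_norm] at hs2
    have h1 := (Complex.abs_re_le_norm (s - c₀)).trans hs2
    have h2 := (Complex.abs_im_le_norm (s - c₀)).trans hs2
    rw [Complex.sub_re, hre, abs_le] at h1
    rw [Complex.sub_im, him] at h2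
    rcases le_or_gt s.re 1 with h3 | h3
    · left
      refine ⟨?_, h3, ?_, hs1⟩
      · have := h1.1
        rw [hRb] at this
        linarith
      · have h4 : |s.im - y| ≤ M₁ := h2.trans hRbM
        rw [abs_le] at h4 ⊢
        constructor <;> linarith [h4.1, h4.2]
    · right
      refine ⟨h3, ?_, h2.trans hRbM⟩
      have h4 : X ^ v ≤ 1 + 1 / (s.re - 1) := le_trans hs1 (helper64_zeta_le h3)
      have h5 : 0 < s.re - 1 := by linarith
      have h6 : (X ^ v - 1) * (s.re - 1) ≤ 1 := by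
        have : X ^ v - 1 ≤ 1 / (s.re - 1) := by linarith
        rwa [le_div_iff₀ h5] at this
      have h7 : (s.re - 1) * X ^ v ≤ 2 := by nlinarith
      have h8 : s.re - 1 ≤ 2 / X ^ v := by rwa [le_div_iff₀ hXvpos]
      linarith
  have hstrip : volume {s : ℂ | 1 < s.re ∧ s.re ≤ 1 + 2 / X ^ v ∧ |s.im - y| ≤ M₁} ≤
      ENNReal.ofReal (Real.pi * v / 8) := by
    refine (helper64_vol_rect 1 (2 / X ^ v) y M₁ (by positivity) (by linarith)).trans ?_
    refine ENNReal.ofReal_le_ofReal ?_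
    have h1 : 64 * M₁ / v ≤ X ^ v := by linarith
    rw [div_le_iff₀ hv0] at h1
    have h2 : 2 / X ^ v * (2 * M₁) = 4 * M₁ / X ^ v := by ring
    rw [h2, div_le_iff₀ hXvpos]
    nlinarith [mul_pos hv0 hXvpos]
  have hfinal : ENNReal.ofReal (Real.pi * v / 8) + ENNReal.ofReal (Real.pi * v / 8) ≤
      volume T + ENNReal.ofReal (Real.pi * v / 8) :=
    hlow.trans ((measure_mono hsub).trans ((measure_union_le _ _).trans
      (add_le_add le_rfl hstrip)))
  exact (ENNReal.add_le_add_iff_right ENNReal.ofReal_ne_top).1 hfinal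

end Pool.Agent.EQ
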